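import Pool.Agent.Helper15.FC.St3

set_option autoImplicit false

/-!
Module GCC of project FC (MP_16cbc0_nt): recursion for `Bkd`.
-/

namespace Pool.Agent.Helper66.FC

open Pool.Agent.Helper15.FC Polynomial
open scoped BigOperators

/-- monic greatest common divisor with Bezout coefficients -/
lemma exists_mgcd {F : Type} [Field F] (d g : F[X]) (hd : d.Monic) :
    ∃ G : F[X], G.Monic ∧ G ∣ d ∧ G ∣ g ∧ ∃ a b : F[X], d * a + g * b = G := by
  classical
  have h0 : EuclideanDomain.gcd d g ≠ 0 := by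
    intro h
    rw [EuclideanDomain.gcd_eq_zero_iff] at h
    exact hd.ne_zero h.1
  have hu : IsUnit (C ((EuclideanDomain.gcd d g).leadingCoeff)⁻¹ : F[X]) := by
    rw [isUnit_C]
    exact (inv_ne_zero (leadingCoeff_ne_zero.2 h0)).isUnit
  refine ⟨EuclideanDomain.gcd d g * C ((EuclideanDomain.gcd d g).leadingCoeff)⁻¹,
    monic_mul_leadingCoeff_inv h0, ?_, ?_,
    EuclideanDomain.gcdA d g * C ((EuclideanDomain.gcd d g).leadingCoeff)⁻¹,
    EuclideanDomain.gcdB d g * C ((EuclideanDomain.gcd d g).leadingCoeff)⁻¹, ?_⟩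
  · exact (hu.mul_right_dvd).2 (EuclideanDomain.gcd_dvd_left d g)
  · exact (hu.mul_right_dvd).2 (EuclideanDomain.gcd_dvd_right d g)
  · rw [← mul_assoc, ← mul_assoc, ← add_mul, ← EuclideanDomain.gcd_eq_gcd_ab]

/-- the quotient by a monic divisor -/
lemma div_spec {F : Type} [Field F] {d e : F[X]} (he : e ≠ 0) (h : e ∣ d) : d = e * (d / e) := by
  obtain ⟨c, rfl⟩ := h
  rw [mul_div_cancel_left₀ _ he]

lemma monic_div {F : Type} [Field F] {d e : F[X]} (hd : d.Monic) (he : e.Monic) (h : e ∣ d) :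
    (d / e).Monic := by
  have h1 := div_spec he.ne_zero h
  rw [h1] at hd
  exact he.of_mul_monic_left hd

/-- general convolution identity -/
lemma conv {F : Type} [Field F] [Fintype F] (H : F[X] → F[X] → ℝ) (n : ℕ) :
    ∑ f ∈ Mn F n, ∑ g ∈ Dv f, H g (f / g) =
      ∑ i ∈ Finset.range (n + 1), ∑ g ∈ Mn F i, ∑ h ∈ Mn F (n - i), H g h := by
  classical
  simp_rw [Finset.sum_sigma']
  refine Finset.sum_bij' (fun x _ => ⟨x.2.natDegree, ⟨x.2, x.1 / x.2⟩⟩)
    (fun y _ => ⟨y.2.1 * y.2.2, y.2.1⟩) ?_ ?_ ?_ ?_ ?_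
  · rintro ⟨f, g⟩ hx
    rw [Finset.mem_sigma] at hx
    obtain ⟨h1, h2⟩ := hx
    simp only at h1 h2
    rw [mem_Mn] at h1
    rw [mem_Dv h1.1.ne_zero] at h2
    have h3 := div_spec h2.1.ne_zero h2.2
    have h4 := monic_div h1.1 h2.1 h2.2
    have h5 : f.natDegree = g.natDegree + (f / g).natDegree := by
      conv_lhs => rw [h3]
      exact h2.1.natDegree_mul h4
    simp only [Finset.mem_sigma, Finset.mem_range, mem_Mn]
    refine ⟨by omega, ⟨h2.1, trivial⟩, h4, by omega⟩
  · rintro ⟨i, g, h⟩ hy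
    simp only [Finset.mem_sigma, Finset.mem_range, mem_Mn] at hy
    obtain ⟨h1, ⟨h2, h3⟩, h4, h5⟩ := hy
    simp only [Finset.mem_sigma, mem_Mn]
    have h6 : (g * h).natDegree = g.natDegree + h.natDegree := h2.natDegree_mul h4
    refine ⟨⟨h2.mul h4, by omega⟩, ?_⟩
    rw [mem_Dv (h2.mul h4).ne_zero]
    exact ⟨h2, dvd_mul_right _ _⟩
  · rintro ⟨f, g⟩ hx
    rw [Finset.mem_sigma] at hx
    obtain ⟨h1, h2⟩ := hx
    simp only at h1 h2
    rw [mem_Mn] at h1
    rw [mem_Dv h1.1.ne_zero] at h2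
    have h3 := div_spec h2.1.ne_zero h2.2
    simp only
    rw [← h3]
  · rintro ⟨i, g, h⟩ hy
    simp only [Finset.mem_sigma, Finset.mem_range, mem_Mn] at hy
    obtain ⟨h1, ⟨h2, h3⟩, h4, h5⟩ := hy
    simp only
    subst h3
    rw [mul_div_cancel_left₀ _ h2.ne_zero]
  · rintro ⟨f, g⟩ _
    rfl

/-- number of monic multiples of a monic polynomial -/
lemma card_mult {F : Type} [Field F] [Fintype F] {m : F[X]} (hm : m.Monic) (i : ℕ)
    [DecidablePred fun g : F[X] => m ∣ g] :
    ∑ g ∈ Mn F i, (if m ∣ g then (1 : ℝ) else 0) =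
      if m.natDegree ≤ i then qr F ^ (i - m.natDegree) else 0 := by
  classical
  rw [← Finset.sum_filter, Finset.sum_const, nsmul_eq_mul, mul_one]
  split_ifs with h
  · have h1 : (Mn F i).filter (fun g => m ∣ g) = (Mn F (i - m.natDegree)).image (fun h => m * h) := by
      ext g
      simp only [Finset.mem_filter, Finset.mem_image, mem_Mn]
      constructor
      · rintro ⟨⟨h1, h2⟩, h, rfl⟩
        have h3 : h.Monic := hm.of_mul_monic_left h1
        have h4 := hm.natDegree_mul h3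
        exact ⟨h, ⟨h3, by omega⟩, rfl⟩
      · rintro ⟨h, ⟨h1, h2⟩, rfl⟩
        have h4 := hm.natDegree_mul h1
        exact ⟨⟨hm.mul h1, by omega⟩, dvd_mul_right _ _⟩
    have h2 : ((Mn F i).filter (fun g => m ∣ g)).card = Fintype.card F ^ (i - m.natDegree) := by
      rw [h1, Finset.card_image_of_injective _ (mul_right_injective₀ hm.ne_zero), card_Mn]
    rw [h2, Nat.cast_pow]
  · have h1 : (Mn F i).filter (fun g => m ∣ g) = ∅ := by
      rw [Finset.filter_eq_empty_iff]
      intro g hg hmg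
      rw [mem_Mn] at hg
      have := Polynomial.natDegree_le_of_dvd hmg hg.1.ne_zero
      omega
    rw [h1]
    simp

/-- indicator of the gcd by Moebius -/
lemma ind (hMOB : StMOB) {F : Type} [Field F] [Fintype F] {d g G e : F[X]} (hd : d.Monic)
    (hG : G.Monic) (hGd : G ∣ d) (hGg : G ∣ g) (hab : ∃ a b : F[X], d * a + g * b = G)
    (he : e ∈ Dv d) [∀ x : F[X], Decidable (x ∣ g)] :
    ∑ c ∈ Dv (d / e), (mob c : ℝ) * (if e * c ∣ g then (1 : ℝ) else 0) =
      (open scoped Classical in if e = G then (1 : ℝ) else 0) := by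
  classical
  rw [mem_Dv hd.ne_zero] at he
  obtain ⟨he, hed⟩ := he
  have hd' := div_spec he.ne_zero hed
  have hdm := monic_div hd he hed
  obtain ⟨d', hd'def⟩ : ∃ d', d' = d / e := ⟨_, rfl⟩
  rw [← hd'def] at hd' hdm ⊢
  obtain ⟨a, b, hab⟩ := hab
  by_cases hg : e ∣ g
  · obtain ⟨g', hg'⟩ := hg
    obtain ⟨G', hG'm, hG'd, hG'g, a', b', hab'⟩ := exists_mgcd d' g' hdm
    have hset : ∑ c ∈ Dv d', (mob c : ℝ) * (if e * c ∣ g then (1 : ℝ) else 0) =
        ∑ c ∈ Dv G', (mob c : ℝ) := by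
      have h1 : Dv G' = (Dv d').filter (fun c => e * c ∣ g) := by
        ext c
        rw [mem_Dv hG'm.ne_zero, Finset.mem_filter, mem_Dv hdm.ne_zero]
        constructor
        · rintro ⟨h1, h2⟩
          refine ⟨⟨h1, h2.trans hG'd⟩, ?_⟩
          rw [hg']
          exact mul_dvd_mul_left e (h2.trans hG'g)
        · rintro ⟨⟨h1, h2⟩, h3⟩
          refine ⟨h1, ?_⟩
          rw [hg', mul_dvd_mul_iff_left he.ne_zero] at h3
          rw [← hab']
          exact dvd_add (h2.mul_right _) (h3.mul_right _)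
      rw [h1, Finset.sum_filter]
      refine Finset.sum_congr rfl fun c _ => ?_
      split_ifs <;> simp
    rw [hset]
    have hGeq : G = e * G' := by
      refine eq_of_monic_of_associated hG (he.mul hG'm) (associated_of_dvd_dvd ?_ ?_)
      · have h1 : e * G' = d * a' + g * b' := by
          rw [← hab', hd', hg']; ring
        rw [h1]
        exact dvd_add (hGd.mul_right _) (hGg.mul_right _)
      · rw [← hab]
        refine dvd_add (Dvd.dvd.mul_right ?_ _) (Dvd.dvd.mul_right ?_ _)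
        · rw [hd']; exact mul_dvd_mul_left e hG'd
        · rw [hg']; exact mul_dvd_mul_left e hG'g
    by_cases hG1 : G' = 1
    · rw [if_pos (by rw [hGeq, hG1, mul_one])]
      rw [hG1]
      exact_mod_cast (hMOB F).1
    · rw [if_neg]
      · exact_mod_cast (hMOB F).2 G' hG'm hG1
      · intro h
        apply hG1
        rw [hGeq] at h
        have h2 : e * 1 = e * G' := by rw [mul_one]; exact h
        exact (mul_left_cancel₀ he.ne_zero h2).symm
  · rw [if_neg]
    · refine Finset.sum_eq_zero fun c _ => ?_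
      rw [if_neg, mul_zero]
      intro h
      exact hg ((dvd_mul_right e c).trans h)
    · rintro rfl
      exact hg hGg

/-- the inner sum over the cofactor -/
lemma inner {F : Type} [Field F] [Fintype F] {d g G : F[X]} (k N : ℕ) (_hd : d.Monic)
    (hG : G.Monic) (hGd : G ∣ d) (hGg : G ∣ g) (hab : ∃ a b : F[X], d * a + g * b = G)
    [∀ x y : F[X], Decidable (x ∣ y)] :
    ∑ h ∈ Mn F N, (if d ∣ g * h then (dk k h : ℝ) else 0) = Bkd k (d / G) N := by
  classical
  have hd' := div_spec hG.ne_zero hGd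
  obtain ⟨d', hd'def⟩ : ∃ d', d' = d / G := ⟨_, rfl⟩
  rw [← hd'def] at hd' ⊢
  obtain ⟨g', hg'⟩ := hGg
  obtain ⟨a, b, hab⟩ := hab
  have hcop : IsCoprime d' g' := by
    refine ⟨a, b, ?_⟩
    have h1 : G * (a * d' + b * g') = G * 1 := by
      rw [mul_one]
      conv_rhs => rw [← hab, hd', hg']
      ring
    exact mul_left_cancel₀ hG.ne_zero h1
  have hiff : ∀ h : F[X], d ∣ g * h ↔ d' ∣ h := by
    intro h
    rw [hd', hg', mul_assoc, mul_dvd_mul_iff_left hG.ne_zero]
    constructor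
    · exact fun h1 => hcop.dvd_of_dvd_mul_left h1
    · exact fun h1 => h1.mul_left _
  unfold Bkd
  rw [Finset.sum_filter]
  refine Finset.sum_congr rfl fun h _ => ?_
  by_cases h1 : d' ∣ h
  · rw [if_pos h1, if_pos ((hiff h).2 h1)]
  · rw [if_neg h1, if_neg (fun h2 => h1 ((hiff h).1 h2))]

theorem hGCC (hDKR : StDKR) (_hCNV : StCNV) (hMOB : StMOB) : StGCC := by
  intro F _ _ k n d hd
  classical
  have step1 : Bkd (k + 1) d n = ∑ f ∈ Mn F n, ∑ g ∈ Dv f,
      (if d ∣ g * (f / g) then (dk k (f / g) : ℝ) else 0) := by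
    unfold Bkd
    rw [Finset.sum_filter]
    refine Finset.sum_congr rfl fun f hf => ?_
    rw [mem_Mn] at hf
    have h1 : (dk (k + 1) f : ℝ) = ∑ g ∈ Dv f, (dk k (f / g) : ℝ) := by
      rw [(hDKR F).2.1 k f hf.1]
      push_cast
      rfl
    have h2 : ∀ g ∈ Dv f, g * (f / g) = f := by
      intro g hg
      rw [mem_Dv hf.1.ne_zero] at hg
      exact (div_spec hg.1.ne_zero hg.2).symm
    split_ifs with h
    · rw [h1]
      refine Finset.sum_congr rfl fun g hg => ?_
      rw [if_pos (by rw [h2 g hg]; exact h)]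
    · symm
      refine Finset.sum_eq_zero fun g hg => ?_
      rw [if_neg (by rw [h2 g hg]; exact h)]
  rw [step1, conv (fun g h => if d ∣ g * h then (dk k h : ℝ) else 0) n]
  refine Finset.sum_congr rfl fun i _ => ?_
  have step2 : ∀ g ∈ Mn F i, ∑ h ∈ Mn F (n - i), (if d ∣ g * h then (dk k h : ℝ) else 0) =
      ∑ e ∈ Dv d, (∑ c ∈ Dv (d / e), (mob c : ℝ) * (if e * c ∣ g then (1 : ℝ) else 0)) *
        Bkd k (d / e) (n - i) := by
    intro g _
    obtain ⟨G, hG, hGd, hGg, hab⟩ := exists_mgcd d g hd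
    rw [inner k (n - i) hd hG hGd hGg hab]
    have h1 : ∀ e ∈ Dv d, (∑ c ∈ Dv (d / e), (mob c : ℝ) * (if e * c ∣ g then (1 : ℝ) else 0)) *
        Bkd k (d / e) (n - i) = if e = G then Bkd k (d / e) (n - i) else 0 := by
      intro e he
      rw [ind hMOB hd hG hGd hGg hab he]
      split_ifs <;> simp
    rw [Finset.sum_congr rfl h1, Finset.sum_ite_eq' (Dv d) G, if_pos]
    exact (mem_Dv hd.ne_zero).2 ⟨hG, hGd⟩
  rw [Finset.sum_congr rfl step2, Finset.sum_comm]
  refine Finset.sum_congr rfl fun e he => ?_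
  rw [mem_Dv hd.ne_zero] at he
  rw [← Finset.sum_mul]
  congr 1
  rw [Finset.sum_comm]
  refine Finset.sum_congr rfl fun c hc => ?_
  have hdm := monic_div hd he.1 he.2
  rw [mem_Dv hdm.ne_zero] at hc
  rw [← Finset.mul_sum, card_mult (he.1.mul hc.1) i, he.1.natDegree_mul hc.1]
  split_ifs with h
  · rw [Nat.sub_sub]
  · rfl

end Pool.Agent.Helper66.FC
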